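import Pool.Agent.Helper64.CT.Stmts

/-! Two far vertices of the model and a new vertex `z` with a neighbour in the model. -/

set_option autoImplicit false

namespace Pool.Agent.Helper64.CT

open Pool.Agent.Helper64.HG (Ovl Model Circ IC HellyCircle)

lemma cpt_bool (a b e : Bool) (h : a ≠ b) : (a = e ↔ ¬ b = e) := by
  cases a <;> cases b <;> cases e <;> simp_all

lemma cpt_geo (ly ry lz rz lp rp : ℝ) (hy : ly < ry) (hz : lz < rz) (hp : lp < rp)
    (hll : ly ≠ lz) (hrr : ry ≠ rz) (h1 : ly ≠ rz) (h2 : lz ≠ ry)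
    (ho : ¬ ((ly < lz ∧ lz < ry ∧ ry < rz) ∨ (lz < ly ∧ ly < rz ∧ rz < ry)))
    (hA : (ly < lp ∧ rp < ry) ↔ ¬ (ly < lz ∧ rz < ry))
    (hB : (lz < lp ∧ rp < rz) ↔ ¬ (lz < ly ∧ ry < rz)) : False := by
  rcases lt_or_gt_of_ne hll with h | h
  · have hnB : ¬ (lz < ly ∧ ry < rz) := fun hh => absurd hh.1 (not_lt.mpr h.le)
    obtain ⟨b1, b2⟩ := hB.mpr hnB
    rcases lt_or_gt_of_ne h2 with h3 | h3
    · rcases lt_or_gt_of_ne hrr with h4 | h4
      · exact ho (Or.inl ⟨h, h3, h4⟩)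
      · exact hA.mp ⟨h.trans b1, b2.trans h4⟩ ⟨h, h4⟩
    · have hnA : ¬ (ly < lz ∧ rz < ry) := fun hh => by
        have := hh.2
        linarith
      obtain ⟨a1, a2⟩ := hA.mpr hnA
      linarith
  · have hnA : ¬ (ly < lz ∧ rz < ry) := fun hh => absurd hh.1 (not_lt.mpr h.le)
    obtain ⟨a1, a2⟩ := hA.mpr hnA
    rcases lt_or_gt_of_ne h1 with h3 | h3
    · rcases lt_or_gt_of_ne hrr with h4 | h4
      · exact hB.mp ⟨h.trans a1, a2.trans h4⟩ ⟨h, h4⟩
      · exact ho (Or.inr ⟨h, h3, h4⟩)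
    · have hnB : ¬ (lz < ly ∧ ry < rz) := fun hh => by
        have := hh.2
        linarith
      obtain ⟨b1, b2⟩ := hB.mpr hnB
      linarith

theorem st_CPT : ST_CPT := by
  intro V G s T z l r ε _ hS _ hM hR p hp hzp y hy y' hy' hyz hyz' hyy
  obtain ⟨S1, S2⟩ := hS
  by_contra hcon
  push Not at hcon
  obtain ⟨c1, c2⟩ := hcon
  have hzy : z ∈ Far G y := Far.symm hyz
  have hzy' : z ∈ Far G y' := Far.symm hyz'
  have hyy' : y ∈ Far G y' := Far.symm hyy
  have hpy : p ≠ y := fun e => hyz.2 (e ▸ hzp)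
  have hpy' : p ≠ y' := fun e => hyz'.2 (e ▸ hzp)
  by_cases h1 : G.Adj y p
  · by_cases h2 : G.Adj y' p
    · have := S2 p z y y' hzp.symm h1.symm h2.symm hyz.1.symm hyz'.1.symm hyy.1.symm
      rcases this with ⟨_, _, h⟩ | ⟨h, _, _⟩ | ⟨h, _, _⟩
      · exact h c1
      · exact h c2
      · exact h c2
    · have hpf : p ∈ Far G y' := ⟨hpy', h2⟩
      have e1 := S1 y' p z hpf hzy' hzp.symm
      have e2 := S1 y' y p hyy' hpf h1
      exact c2 (e1.symm.trans e2.symm)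
  · have hpf : p ∈ Far G y := ⟨hpy, h1⟩
    have e1 := S1 y p z hpf hzy hzp.symm
    by_cases h2 : G.Adj y' p
    · have e2 := S1 y y' p hyy hpf h2
      exact c1 (e1.symm.trans e2.symm)
    · have hpf' : p ∈ Far G y' := ⟨hpy', h2⟩
      have e2 := S1 y' p z hpf' hzy' hzp.symm
      have A1 := hR y hy p hp hpf
      have A2 := hR y hy y' hy' hyy
      have B1 := hR y' hy' p hp hpf'
      have B2 := hR y' hy' y hy hyy'
      have hno : ¬ Ovl l r y y' := fun ho => hyy.2 ((hM.adj y hy y' hy').mpr ho)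
      have d1 : s y p ≠ s y y' := by rw [e1]; exact c1
      have d2 : s y' p ≠ s y' y := by rw [e2]; exact c2
      have hA : Ins l r y p ↔ ¬ Ins l r y y' := by
        rw [A1, A2]; exact cpt_bool _ _ _ d1
      have hB : Ins l r y' p ↔ ¬ Ins l r y' y := by
        rw [B1, B2]; exact cpt_bool _ _ _ d2
      have hne : y ≠ y' := hyy.1.symm
      exact cpt_geo (l y) (r y) (l y') (r y') (l p) (r p) (hM.lt y hy) (hM.lt y' hy')
        (hM.lt p hp) (fun e => hne (hM.injl y hy y' hy' e)) (fun e => hne (hM.injr y hy y' hy' e))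
        (hM.ne y hy y' hy') (hM.ne y' hy' y hy) hno hA hB

end Pool.Agent.Helper64.CT
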